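import Pool.Agent.H542.NS.Stm
import Pool.Agent.H225.Par.Par

/-!
# Tuples near squares (helper542), task PARI (helper276): parity in the sifted part of the interval

Adaptation of `Pool/Agent/H225/Par/Par.lean`.
-/

set_option autoImplicit false
set_option linter.unusedSectionVars false

open scoped Classical
open Polynomial

namespace Pool.Agent.H542.NS.PARI

open Pool.Agent.H542.NS
open Pool.Agent.H225.Par
open Pool.Agent.H985.Chow (mob MD)
open Pool.Agent.H985.KP (mobg)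
open Pool.Agent.H985.Par (mass Fb Sfs Sft S_sw)
open Pool.Agent.H694.Typ (Mn mem_Mn card_Mn PU mem_PU sum_deg_le wt)
open Pool.Agent.H985.Chow.Asm (G G_inj G_add G_surj ta tb mem_deg G_mem mem_G card_deg
  window_finsum sum_MD MD_finite instFD mem_of_natDegree_lt natDegree_lt_of_mem abs_mob)

/-- the bound for one set `S` -/
theorem par1 (hf : S_fibI) (hs : S_sw) (hl : S_lowI) (K : Type) [Field K] [Fintype K] [CharP K 2]
    (k : ℕ) (ε : ℝ) (hε : 0 < ε) (S : Finset (Fin k)) (hS : S.Nonempty) :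
    ∃ κ : ℝ, 0 < κ ∧ ∃ m₀ n₀ : ℕ, ∀ n : ℕ, n₀ ≤ n → ∀ m : ℕ, m₀ ≤ m → (m : ℝ) ≤ κ * n →
      ∀ D : K[X], Cn n D → ∀ α : Fin k → K[X], Function.Injective α →
      (∀ i, (α i).natDegree < n) →
        |∑ f ∈ Sfs K (fun i => D ^ 2 + α i) n m, ∏ i ∈ S, (mob (f + (D ^ 2 + α i)) : ℝ)| ≤
          ε * (Sfs K (fun i => D ^ 2 + α i) n m).card := by
  have hq1 : (1 : ℝ) < Fintype.card K := by exact_mod_cast Fintype.one_lt_card
  have hq0 : (0 : ℝ) < Fintype.card K := by linarith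
  have hq2 : 2 ≤ Fintype.card K := Fintype.one_lt_card
  obtain ⟨k', hk'⟩ : ∃ k', k' = S.card := ⟨_, rfl⟩
  have hk'1 : 1 ≤ k' := by rw [hk']; exact Finset.card_pos.2 hS
  obtain ⟨e, he, hprod⟩ : ∃ e : Fin k' → Fin k, Function.Injective e ∧
      ∀ h : Fin k → ℝ, ∏ i ∈ S, h i = ∏ j, h (e j) := by
    subst hk'
    refine ⟨fun j => (S.equivFin.symm j : Fin k), fun j j' h =>
      S.equivFin.symm.injective (Subtype.ext h), ?_⟩
    intro h
    rw [← Finset.prod_coe_sort S h, ← Equiv.prod_comp S.equivFin.symm]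
  obtain ⟨ε₁, hε₁⟩ : ∃ ε₁ : ℝ, ε₁ = min ε 1 / 8 := ⟨_, rfl⟩
  have hε₁0 : 0 < ε₁ := by
    rw [hε₁]
    have : 0 < min ε 1 := lt_min hε one_pos
    linarith
  have hε₁8 : ε₁ ≤ 1 / 8 := by
    rw [hε₁]
    have : min ε 1 ≤ 1 := min_le_right _ _
    linarith
  have hε₁ε : 8 * ε₁ ≤ ε := by
    rw [hε₁]
    have : min ε 1 ≤ ε := min_le_left _ _
    linarith
  obtain ⟨A, hA⟩ := sw1 hs K k ε₁ hε₁0
  have hAC : SWC K k ε₁ A := hA
  obtain ⟨κ, θ, c, hκ, hκ8, hθ, hc, n₁, hfib⟩ := hf K k' (ε / 4) hk'1 (by linarith)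
  obtain ⟨c', hc', A', hlow⟩ := hl K k
  obtain ⟨δ, hδ⟩ : ∃ δ : ℝ, δ = ε₁ * c' / (1 + ε₁) := ⟨_, rfl⟩
  have hδ0 : 0 < δ := by rw [hδ]; positivity
  obtain ⟨κ₀, hκ₀, n₂, has⟩ := asym (Fintype.card K) k A c δ hq2 hc hδ0
  have hA1 : (0 : ℝ) < A + 1 := by positivity
  have hA2 : (0 : ℝ) < A' + 1 := by positivity
  obtain ⟨κf, hκf⟩ : ∃ κf : ℝ, κf = min (min κ₀ θ) (min (κ / (A + 1)) (1 / (A' + 1))) := ⟨_, rfl⟩
  have hκf0 : 0 < κf := by
    rw [hκf]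
    exact lt_min (lt_min hκ₀ hθ) (lt_min (by positivity) (by positivity))
  have hκf1 : κf ≤ κ₀ := by rw [hκf]; exact (min_le_left _ _).trans (min_le_left _ _)
  have hκf2 : κf ≤ θ := by rw [hκf]; exact (min_le_left _ _).trans (min_le_right _ _)
  have hκf3 : κf * (A + 1) ≤ κ := by
    rw [← le_div_iff₀ hA1, hκf]
    exact (min_le_right _ _).trans (min_le_left _ _)
  have hκf4 : κf * (A' + 1) ≤ 1 := by
    rw [← le_div_iff₀ hA2, hκf]
    exact (min_le_right _ _).trans (min_le_right _ _)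
  refine ⟨κf, hκf0, k + 1, n₁ + n₂ + ⌈1 / κ⌉₊, ?_⟩
  intro n hn m hm hmn D hD α hα hαd
  obtain ⟨β, hβ⟩ : ∃ β : Fin k → K[X], β = fun i => D ^ 2 + α i := ⟨_, rfl⟩
  have hn0 : (0 : ℝ) ≤ n := Nat.cast_nonneg _
  have hm0 : (0 : ℝ) ≤ m := Nat.cast_nonneg _
  have hm1 : 1 ≤ m := by omega
  have hκn : 1 ≤ κ * n := by
    have h1 : (1 / κ : ℝ) ≤ n := by
      refine (Nat.le_ceil _).trans ?_
      exact_mod_cast (by omega : ⌈1 / κ⌉₊ ≤ n)
    rw [div_le_iff₀ hκ] at h1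
    linarith
  have hmκ₀ : (m : ℝ) ≤ κ₀ * n := hmn.trans (mul_le_mul_of_nonneg_right hκf1 hn0)
  have hmθ : (m : ℝ) ≤ θ * n := hmn.trans (mul_le_mul_of_nonneg_right hκf2 hn0)
  have hAm : (A * m : ℝ) ≤ κ * n := by
    have h1 : (A + 1 : ℝ) * m ≤ (A + 1) * (κf * n) := mul_le_mul_of_nonneg_left hmn hA1.le
    have h2 : κf * (A + 1) * n ≤ κ * n := mul_le_mul_of_nonneg_right hκf3 hn0
    nlinarith
  have hA'm : A' * m ≤ n := by
    have h1 : (A' + 1 : ℝ) * m ≤ (A' + 1) * (κf * n) := mul_le_mul_of_nonneg_left hmn hA2.le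
    have h2 : κf * (A' + 1) * n ≤ 1 * n := mul_le_mul_of_nonneg_right hκf4 hn0
    have h3 : ((A' * m : ℕ) : ℝ) ≤ n := by
      push_cast
      nlinarith
    exact_mod_cast h3
  have hAn : A * m ≤ n := by
    have h3 : ((A * m : ℕ) : ℝ) ≤ n := by
      push_cast
      nlinarith
    exact_mod_cast h3
  have hgoal : |∑ f ∈ Sfs K β n m, ∏ i ∈ S, (mob (f + β i) : ℝ)| ≤ ε * (Sfs K β n m).card := ?_
  · rw [hβ] at hgoal
    exact hgoal
  rcases (Sfs K β n m).eq_empty_or_nonempty with hemp | hne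
  · rw [hemp]
    simp
  choose s₀ t hst₀ using fun i => G_surj (α i)
  obtain ⟨s, hsD⟩ : ∃ s : Fin k → K[X], s = fun i => D + s₀ i := ⟨_, rfl⟩
  have hst : ∀ i, G (s i) (t i) = β i := by
    intro i
    have h1 := hst₀ i
    have h2 := G_add D 0 (s₀ i) (t i)
    rw [zero_add] at h2
    rw [hsD, hβ]
    show G (D + s₀ i) (t i) = D ^ 2 + α i
    rw [h2, h1]
    unfold G
    ring
  have hβ' : β = fun i => G (s i) (t i) := funext fun i => (hst i).symm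
  -- admissible
  have hadm : ∀ P ∈ PU K m, ∃ r, ∀ i, ¬ P ∣ r - G (s i) (t i) := by
    intro P hP
    obtain ⟨f, hf⟩ := hne
    unfold Sfs at hf
    rw [Finset.mem_filter, Sft_iff] at hf
    refine ⟨f, fun i hi => hf.2 P hP i ?_⟩
    show P ∣ f - β i
    rw [← hst i]
    exact hi
  have hadm2 : ∀ P : K[X], P.Monic → Irreducible P → ∃ r : K[X], ∀ i, ¬ P ∣ r + β i := by
    intro P hP1 hP2
    by_cases hPm : P.natDegree ≤ m
    · obtain ⟨r, hr⟩ := hadm P (mem_PU.2 ⟨hP1, hP2, hPm⟩)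
      refine ⟨r, fun i hi => hr i ?_⟩
      rw [CharTwo.sub_eq_add, hst i]
      exact hi
    · apply adm_big β hP1
      have h1 : P.natDegree < 2 ^ P.natDegree := Nat.lt_two_pow_self
      have h2 : 2 ^ P.natDegree ≤ Fintype.card K ^ P.natDegree := Nat.pow_le_pow_left hq2 _
      omega
  have hPU : ∀ P ∈ PU K m, P.Monic ∧ Irreducible P := fun P hP =>
    ⟨(mem_PU.1 hP).1, (mem_PU.1 hP).2.1⟩
  have hPU2 : ∀ P ∈ PU K m, P.Monic ∧ Irreducible P ∧ P.natDegree ≤ m ∧ IsCoprime (1 : K[X]) P :=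
    fun P hP => ⟨(mem_PU.1 hP).1, (mem_PU.1 hP).2.1, (mem_PU.1 hP).2.2, isCoprime_one_left⟩
  obtain ⟨V, hV⟩ : ∃ V, V = vf (PU K m) (fun _ i => G (s i) (t i)) := ⟨_, rfl⟩
  have hV0 : 0 < V := by
    rw [hV]
    exact vf_pos _ _ (fun P hP => (hPU P hP).1) hadm
  obtain ⟨Z, hZ⟩ : ∃ Z : ℝ, Z = (Sfs K β n m).card := ⟨_, rfl⟩
  have hZ0 : 0 ≤ Z := by rw [hZ]; exact Nat.cast_nonneg _
  -- the global sieve
  have hglob := hA n m (PU K m) (fun _ i => G (s i) (t i)) 1 (X ^ n) hm1 hAn hPU2 hadm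
  have hZ1 : Z = ∑ u : degreeLT K n, ind (PU K m) (fun _ i => G (s i) (t i))
      (X ^ n + 1 * (u : K[X])) := by
    rw [hZ, card_Sfs, sum_Mn', hβ']
  have hZlo : (1 - ε₁) * V * (Fintype.card K : ℝ) ^ n ≤ Z := by rw [hZ1, hV]; exact hglob.1
  have hZhi : Z ≤ (1 + ε₁) * V * (Fintype.card K : ℝ) ^ n := by rw [hZ1, hV]; exact hglob.2.1
  have hlow1 : c' * (Fintype.card K : ℝ) ^ n / (m : ℝ) ^ k ≤ Z := by
    have h := (hlow n m hm1 hA'm D hD α hα hαd (by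
      intro P hP1 hP2
      obtain ⟨r, hr⟩ := hadm2 P hP1 hP2
      rw [hβ] at hr
      exact ⟨r, hr⟩)).1
    rw [hZ, hβ]
    exact h
  have hqn : (0 : ℝ) < (Fintype.card K : ℝ) ^ n := pow_pos hq0 _
  have hmk : (0 : ℝ) < (m : ℝ) ^ k := by
    have : (0 : ℝ) < m := by exact_mod_cast hm1
    positivity
  have hVlow : δ ≤ ε₁ * V * (m : ℝ) ^ k := by
    have h1 : c' * (Fintype.card K : ℝ) ^ n / (m : ℝ) ^ k ≤
        (1 + ε₁) * V * (Fintype.card K : ℝ) ^ n := hlow1.trans hZhi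
    rw [div_le_iff₀ hmk] at h1
    have h2 : c' * (Fintype.card K : ℝ) ^ n ≤
        ((1 + ε₁) * V * (m : ℝ) ^ k) * (Fintype.card K : ℝ) ^ n := by linarith
    have h3 := le_of_mul_le_mul_right h2 hqn
    rw [hδ, div_le_iff₀ (by linarith)]
    nlinarith
  have hsmall : 2 * ((k + 1 : ℝ) * Fintype.card K) ^ (A * m) *
      (Fintype.card K : ℝ) ^ (-(c * n)) ≤ ε₁ * vf (PU K m) (fun _ i => G (s i) (t i)) := by
    rw [← hV]
    have h1 := (has n (by omega) m hmκ₀).trans hVlow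
    exact le_of_mul_le_mul_right h1 hmk
  -- the fibres
  obtain ⟨Exc, hExc, hExcn, hgood⟩ := hfib n (by omega) (s₀ ∘ e) (t ∘ e) {P : K[X] | P ∈ PU K m}
    D hD
    (by
      intro j j' h
      apply he
      apply hα
      rw [← hst₀, ← hst₀]
      have h1 := Prod.ext_iff.1 h
      show G (s₀ (e j)) (t (e j)) = G (s₀ (e j')) (t (e j'))
      have h2 : s₀ (e j) = s₀ (e j') := h1.1
      have h3 : t (e j) = t (e j') := h1.2
      rw [h2, h3])
    (by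
      intro j
      have h1 := hαd (e j)
      rw [← hst₀] at h1
      exact h1)
    ((mass_le m n).trans hmθ)
  obtain ⟨T, hT⟩ : ∃ T : degreeLT K (n / 2) → ℝ, T = fun v' : degreeLT K (n / 2) =>
      ∑ v : degreeLT K ((n + 1) / 2),
      ind (PU K m) (fun _ i => G (s i) (t i)) (G (ta K n + (v : K[X])) (tb K n + (v' : K[X]))) *
        ∏ j, (mob (G (ta K n + (v : K[X])) (tb K n + (v' : K[X])) + G (s (e j)) (t (e j))) : ℝ) :=
    ⟨_, rfl⟩
  obtain ⟨U, hU⟩ : ∃ U : degreeLT K (n / 2) → ℝ, U = fun v' : degreeLT K (n / 2) =>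
      ∑ v : degreeLT K ((n + 1) / 2),
      ind (PU K m) (fun _ i => G (s i) (t i)) (G (ta K n + (v : K[X])) (tb K n + (v' : K[X]))) :=
    ⟨_, rfl⟩
  have hZU : Z = ∑ v', U v' := by
    rw [hZ, card_Sfs, sum_Mn, sum_MD, hU, hβ']
  have hsumT : ∑ f ∈ Sfs K β n m, ∏ i ∈ S, (mob (f + β i) : ℝ) = ∑ v', T v' := by
    rw [sum_Sfs, sum_Mn, sum_MD, hT]
    refine Finset.sum_congr rfl fun v' _ => Finset.sum_congr rfl fun v _ => ?_
    rw [hprod, hβ']
  have hTU : ∀ v', |T v'| ≤ U v' := by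
    intro v'
    rw [hT, hU]
    refine (Finset.abs_sum_le_sum_abs _ _).trans (Finset.sum_le_sum fun v _ => ?_)
    rw [abs_mul, abs_of_nonneg (ind_nonneg _ _ _)]
    exact mul_le_of_le_one_right (ind_nonneg _ _ _) (abs_prod_mob _)
  obtain ⟨N, hN⟩ : ∃ N, N = (n + 1) / 2 := ⟨_, rfl⟩
  have hUle : ∀ v', U v' ≤ (1 + ε₁) * V * (Fintype.card K : ℝ) ^ N := by
    intro v'
    have hAN : A * m ≤ N := by
      have h3 : ((A * m : ℕ) : ℝ) ≤ κ * n := by
        push_cast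
        exact hAm
      have h4 : (8 : ℝ) * ((A * m : ℕ) : ℝ) ≤ n := by nlinarith
      have h5 : 8 * (A * m) ≤ n := by exact_mod_cast h4
      omega
    have h1 := (hA N m (PU K m) (bet s t (tb K n + (v' : K[X]))) 1 (ta K n) hm1 hAN hPU2
      (fun P hP => adm_bet s t (hPU P hP).2 _ (hadm P hP))).2.1
    rw [vf_bet s t (PU K m) hPU, ← hV] at h1
    rw [hU, hN]
    rw [hN] at h1
    refine le_trans (le_of_eq ?_) h1
    refine Finset.sum_congr rfl fun v _ => ?_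
    rw [one_mul, ind_bet s t (PU K m) hPU]
  have hTgood : ∀ v' : degreeLT K (n / 2), tb K n + (v' : K[X]) ∉ Exc → |T v'| ≤ 4 * ε₁ * U v' := by
    intro v' hv'
    obtain ⟨E, hE, hEd, hEP, hEfib'⟩ := hgood (tb K n + (v' : K[X])) (mem_Fb n v') hv'
    have hEfib : FibC K κ c n (s ∘ e) (t ∘ e) {P : K[X] | P ∈ PU K m} (tb K n + (v' : K[X])) E := by
      rw [hsD]
      exact hEfib'
    rw [hT, hU]
    exact fibre hε₁0 hε₁8 hAC n m hm1 s t e κ c hκ8 hadm (v' : K[X]) v'.2 _ rfl E hE hEd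
      (fun P hP hj => hEP P hP (hPU P hP).1 (hPU P hP).2 hj) hEfib hAm hκn hsmall
  have hqN : (0 : ℝ) < (Fintype.card K : ℝ) ^ N := pow_pos hq0 _
  have hall : ∀ v' : degreeLT K (n / 2), |T v'| ≤ 4 * ε₁ * U v' +
      (if tb K n + (v' : K[X]) ∈ Exc then (1 + ε₁) * V * (Fintype.card K : ℝ) ^ N else 0) := by
    intro v'
    have hU0 : 0 ≤ U v' := (abs_nonneg _).trans (hTU v')
    split_ifs with h
    · have h1 := (hTU v').trans (hUle v')
      have h2 : 0 ≤ 4 * ε₁ * U v' := by positivity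
      linarith
    · rw [add_zero]
      exact hTgood v' h
  rw [hsumT, ← hZ]
  refine (Finset.abs_sum_le_sum_abs _ _).trans ?_
  refine (Finset.sum_le_sum (fun v' _ => hall v')).trans ?_
  rw [Finset.sum_add_distrib, ← Finset.mul_sum, ← hZU, ← Finset.sum_filter, Finset.sum_const,
    nsmul_eq_mul]
  have hcard : (((Finset.univ : Finset (degreeLT K (n / 2))).filter
      (fun v' : degreeLT K (n / 2) => tb K n + (v' : K[X]) ∈ Exc)).card : ℝ) ≤
      ε / 4 * (Fintype.card K : ℝ) ^ (n / 2) := by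
    refine le_trans ?_ hExcn
    exact_mod_cast card_exc n Exc ((Fb_finite n).subset hExc)
  have hnn : (Fintype.card K : ℝ) ^ n = (Fintype.card K : ℝ) ^ (n / 2) * (Fintype.card K : ℝ) ^ N := by
    rw [← pow_add]
    congr 1
    omega
  have h1 : (((Finset.univ : Finset (degreeLT K (n / 2))).filter
      (fun v' : degreeLT K (n / 2) => tb K n + (v' : K[X]) ∈ Exc)).card : ℝ) *
      ((1 + ε₁) * V * (Fintype.card K : ℝ) ^ N) ≤
      ε / 4 * (Fintype.card K : ℝ) ^ (n / 2) * ((1 + ε₁) * V * (Fintype.card K : ℝ) ^ N) :=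
    mul_le_mul_of_nonneg_right hcard (by positivity)
  have h2 : ε / 4 * (Fintype.card K : ℝ) ^ (n / 2) * ((1 + ε₁) * V * (Fintype.card K : ℝ) ^ N) =
      ε / 4 * ((1 + ε₁) * (V * (Fintype.card K : ℝ) ^ n)) := by
    rw [hnn]
    ring
  obtain ⟨W, hW⟩ : ∃ W, W = V * (Fintype.card K : ℝ) ^ n := ⟨_, rfl⟩
  have hW0 : 0 < W := by rw [hW]; positivity
  rw [mul_assoc, ← hW] at hZlo
  rw [h2, ← hW] at h1
  have h3 : (1 + ε₁) * W ≤ 2 * Z := by nlinarith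
  have h4 : ε / 4 * ((1 + ε₁) * W) ≤ ε / 4 * (2 * Z) := mul_le_mul_of_nonneg_left h3 (by linarith)
  have h5 : 4 * ε₁ * Z ≤ ε / 2 * Z := mul_le_mul_of_nonneg_right (by linarith) hZ0
  linarith

/-- **Task PARI.** -/
theorem parI : T_parI := by
  intro hf hs hl K _ _ _ k ε hε
  have h := fun S : {S : Finset (Fin k) // S.Nonempty} => par1 hf hs hl K k ε hε S.1 S.2
  choose κ hκ m₀ n₀ hpar using h
  obtain ⟨κ', hκ'0, hκ'⟩ : ∃ κ' : ℝ, 0 < κ' ∧ ∀ S, κ' ≤ κ S := by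
    rcases isEmpty_or_nonempty {S : Finset (Fin k) // S.Nonempty} with hemp | hne
    · exact ⟨1, one_pos, fun S => (hemp.false S).elim⟩
    · obtain ⟨S₀, hS₀⟩ := Finite.exists_min κ
      exact ⟨κ S₀, hκ S₀, hS₀⟩
  refine ⟨κ', hκ'0, ∑ S, m₀ S, ∑ S, n₀ S, ?_⟩
  intro n hn m hm hmn D hD α hα hαd S hS
  have h1 : m₀ ⟨S, hS⟩ ≤ ∑ S, m₀ S :=
    Finset.single_le_sum (f := m₀) (fun _ _ => Nat.zero_le _) (Finset.mem_univ _)
  have h2 : n₀ ⟨S, hS⟩ ≤ ∑ S, n₀ S :=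
    Finset.single_le_sum (f := n₀) (fun _ _ => Nat.zero_le _) (Finset.mem_univ _)
  exact hpar ⟨S, hS⟩ n (h2.trans hn) m (h1.trans hm)
    (hmn.trans (mul_le_mul_of_nonneg_right (hκ' _) (Nat.cast_nonneg _))) D hD α hα hαd

end Pool.Agent.H542.NS.PARI
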